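import Pool.Agent.H21.L.R_pool_sql_team_seeded_2aa45f1a.Q5.BP.Near

/-!
# The sum over the zeros of an entire function of order less than `2`, all of whose zeros are imaginary
-/

set_option autoImplicit false

open Filter Topology Set Complex Metric

namespace Pool.Agent.Q5.SZ

/-- one linear factor -/
theorem split_one {F : ℂ → ℂ} (hF : Differentiable ℂ F) {ρ M : ℝ} (hρ : 0 < ρ)
    (hb : ∀ w ∈ closedBall (0 : ℂ) (2 * ρ), ‖F w‖ ≤ M) {u : ℂ}
    (hu0 : u ≠ 0) (hu : ‖u‖ ≤ ρ) (hFu : F u = 0) :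
    ∃ G : ℂ → ℂ, Differentiable ℂ G ∧ (∀ w ∈ closedBall (0 : ℂ) (2 * ρ), ‖G w‖ ≤ M) ∧
      (∀ w, F w = (1 - w / u) * G w) := by
  have hun : 0 < ‖u‖ := norm_pos_iff.2 hu0
  have hds : Differentiable ℂ (dslope F u) := by
    rw [← differentiableOn_univ]
    exact (Complex.differentiableOn_dslope Filter.univ_mem).2 hF.differentiableOn
  have hds' : ∀ w, (w - u) * dslope F u w = F w := by
    intro w
    have := sub_smul_dslope F u w
    rw [hFu, sub_zero, smul_eq_mul] at this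
    exact this
  set G : ℂ → ℂ := fun z => -u * dslope F u z with hG
  have hGd : Differentiable ℂ G := hds.const_mul _
  have hFG : ∀ w, F w = (1 - w / u) * G w := by
    intro w
    rw [hG, ← hds' w]
    field_simp
    ring
  refine ⟨G, hGd, ?_, hFG⟩
  have hfr : ∀ z ∈ frontier (ball (0 : ℂ) (2 * ρ)), ‖G z‖ ≤ M := by
    intro z hz
    rw [frontier_ball _ (by positivity)] at hz
    have hz' : ‖z‖ = 2 * ρ := by simpa using hz
    have h1 : 1 ≤ ‖1 - z / u‖ := by
      have h2 : ‖z / u‖ - ‖(1 : ℂ)‖ ≤ ‖z / u - 1‖ := norm_sub_norm_le _ _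
      rw [norm_sub_rev (z / u), norm_div, norm_one] at h2
      have h3 : 2 ≤ ‖z‖ / ‖u‖ := by
        rw [le_div_iff₀ hun, hz']
        linarith
      linarith
    have h4 : ‖F z‖ = ‖1 - z / u‖ * ‖G z‖ := by rw [hFG z, norm_mul]
    have h5 := hb z (by simp [hz'])
    have h6 : ‖G z‖ ≤ ‖1 - z / u‖ * ‖G z‖ := le_mul_of_one_le_left (norm_nonneg _) h1
    linarith
  intro z hz
  refine Complex.norm_le_of_forall_mem_frontier_norm_le (U := ball (0 : ℂ) (2 * ρ))
    isBounded_ball ⟨hGd.differentiableOn, hGd.continuous.continuousOn⟩ hfr ?_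
  rw [closure_ball _ (by positivity)]
  exact hz

/-- the factor of a multiple zero -/
theorem split_mult (n : ℕ) : ∀ {F : ℂ → ℂ}, Differentiable ℂ F → ∀ {ρ M : ℝ}, 0 < ρ →
    (∀ w ∈ closedBall (0 : ℂ) (2 * ρ), ‖F w‖ ≤ M) → ∀ {u : ℂ}, u ≠ 0 → ‖u‖ ≤ ρ →
    analyticOrderAt F u = n →
    ∃ G : ℂ → ℂ, Differentiable ℂ G ∧ (∀ w ∈ closedBall (0 : ℂ) (2 * ρ), ‖G w‖ ≤ M) ∧
      (∀ w, F w = (1 - w / u) ^ n * G w) ∧ G u ≠ 0 := by
  induction n with
  | zero =>
    intro F hF ρ M hρ hb u hu0 hu hn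
    refine ⟨F, hF, hb, fun w => by simp, ?_⟩
    exact ((hF.analyticAt u).analyticOrderAt_eq_zero).1 (by simpa using hn)
  | succ n ih =>
    intro F hF ρ M hρ hb u hu0 hu hn
    have hFu : F u = 0 := by
      by_contra h
      have := ((hF.analyticAt u).analyticOrderAt_eq_zero).2 h
      rw [this] at hn
      have h2 : ((n + 1 : ℕ) : ℕ∞) ≠ 0 := by simp
      exact h2 hn.symm
    obtain ⟨G, hG, hGb, hFG⟩ := split_one hF hρ hb hu0 hu hFu
    have hord : analyticOrderAt F u = 1 + analyticOrderAt G u := by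
      have e : F = (fun w => 1 - w / u) * G := funext hFG
      have h1 : AnalyticAt ℂ (fun w : ℂ => 1 - w / u) u := by fun_prop
      rw [e, analyticOrderAt_mul h1 (hG.analyticAt u)]
      congr 1
      have h2 : ((1 : ℕ) : ℕ∞) = 1 := rfl
      rw [← h2, h1.analyticOrderAt_eq_natCast]
      refine ⟨fun _ => -1 / u, by fun_prop, div_ne_zero (by norm_num) hu0, ?_⟩
      refine Eventually.of_forall fun w => ?_
      rw [pow_one, smul_eq_mul]
      field_simp
      ring
    have hn' : analyticOrderAt G u = n := by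
      rw [hord] at hn
      have h4 : analyticOrderAt G u ≠ ⊤ := by
        intro h5
        rw [h5, add_top] at hn
        exact ENat.natCast_ne_top _ hn.symm
      obtain ⟨m, hm⟩ := ENat.ne_top_iff_exists.1 h4
      rw [← hm] at hn ⊢
      have h5 : 1 + m = n + 1 := by exact_mod_cast hn
      have h6 : m = n := by omega
      rw [h6]
    obtain ⟨G', h1, h2, h3, h4⟩ := ih hG hρ hGb hu0 hu hn'
    refine ⟨G', h1, h2, fun w => ?_, h4⟩
    rw [hFG w, h3 w, pow_succ']
    ring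

theorem order_factor {G : ℂ → ℂ} (hG : Differentiable ℂ G) {u v : ℂ} (h : v ≠ u) (hu : u ≠ 0)
    (n : ℕ) : analyticOrderAt (fun w => (1 - w / u) ^ n * G w) v = analyticOrderAt G v := by
  have h1 : AnalyticAt ℂ (fun w : ℂ => (1 - w / u) ^ n) v := by fun_prop
  have e : (fun w => (1 - w / u) ^ n * G w) = (fun w => (1 - w / u) ^ n) * G := rfl
  rw [e, analyticOrderAt_mul h1 (hG.analyticAt v)]
  have h2 : analyticOrderAt (fun w : ℂ => (1 - w / u) ^ n) v = 0 := by
    rw [h1.analyticOrderAt_eq_zero]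
    refine pow_ne_zero _ fun h3 => h ?_
    have h4 : v / u = 1 := by linear_combination -h3
    rwa [div_eq_one_iff_eq hu] at h4
  rw [h2, zero_add]

/-- the factors of finitely many zeros -/
theorem split_all (Z : Finset ℂ) : ∀ {F : ℂ → ℂ}, Differentiable ℂ F → ∀ {ρ M : ℝ}, 0 < ρ →
    (∀ w ∈ closedBall (0 : ℂ) (2 * ρ), ‖F w‖ ≤ M) → (∀ u ∈ Z, u ≠ 0) → (∀ u ∈ Z, ‖u‖ ≤ ρ) →
    (∀ u ∈ Z, analyticOrderAt F u ≠ ⊤) →
    ∃ G : ℂ → ℂ, Differentiable ℂ G ∧ (∀ w ∈ closedBall (0 : ℂ) (2 * ρ), ‖G w‖ ≤ M) ∧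
      (∀ w, F w = (∏ u ∈ Z, (1 - w / u) ^ (analyticOrderAt F u).toNat) * G w) ∧
      ∀ u ∈ Z, G u ≠ 0 := by
  classical
  induction Z using Finset.induction_on with
  | empty =>
    intro F hF ρ M hρ hb _ _ _
    exact ⟨F, hF, hb, fun w => by simp, fun u hu => by simp at hu⟩
  | insert a Z ha ih =>
    intro F hF ρ M hρ hb h0 hZ ht
    obtain ⟨G, hG, hGb, hFG, hGa⟩ := split_mult (analyticOrderAt F a).toNat hF hρ hb
      (h0 a (Finset.mem_insert_self a Z)) (hZ a (Finset.mem_insert_self a Z))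
      (ENat.natCast_toNat (ht a (Finset.mem_insert_self a Z))).symm
    have hord : ∀ u ∈ Z, analyticOrderAt G u = analyticOrderAt F u := by
      intro u hu
      have h1 := order_factor hG (u := a) (v := u) (fun h => ha (h ▸ hu))
        (h0 a (Finset.mem_insert_self a Z)) (analyticOrderAt F a).toNat
      rw [← h1]
      congr 1
      exact (funext hFG).symm
    obtain ⟨G', h1, h2, h3, h4⟩ := ih hG hρ hGb (fun u hu => h0 u (Finset.mem_insert_of_mem hu))
      (fun u hu => hZ u (Finset.mem_insert_of_mem hu)) (fun u hu => by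
        rw [hord u hu]
        exact ht u (Finset.mem_insert_of_mem hu))
    refine ⟨G', h1, h2, fun w => ?_, fun u hu => ?_⟩
    · rw [hFG w, h3 w, Finset.prod_insert ha, mul_assoc]
      congr 2
      refine Finset.prod_congr rfl fun u hu => ?_
      rw [hord u hu]
    · rcases Finset.mem_insert.1 hu with h | h
      · rw [h]
        intro h5
        apply hGa
        rw [h3 a, h5, mul_zero]
      · exact h4 u h

/-- the logarithmic derivative of a function without zeros in a disc -/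
theorem nz_bound {F : ℂ → ℂ} (hF : Differentiable ℂ F) {ρ M : ℝ} (hρ : 0 < ρ)
    (hnz : ∀ u ∈ ball (0 : ℂ) ρ, F u ≠ 0) (hb : ∀ w ∈ ball (0 : ℂ) ρ, ‖F w‖ ≤ Real.exp M) :
    ‖deriv (fun z => deriv F z / F z) 0‖ ≤ 16 * (M - Real.log ‖F 0‖) / ρ ^ 2 := by
  have h0 : F 0 ≠ 0 := hnz 0 (mem_ball_self hρ)
  have h0n : 0 < ‖F 0‖ := norm_pos_iff.2 h0
  have hg : DifferentiableOn ℂ (fun z => deriv F z / F z) (ball 0 ρ) := by
    refine DifferentiableOn.div ?_ hF.differentiableOn hnz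
    exact (hF.contDiff (n := 2)).differentiable_deriv_two.differentiableOn
  obtain ⟨L0, hL0⟩ := hg.isExactOn_ball
  set L : ℂ → ℂ := fun z => L0 z - L0 0 with hLdef
  have hL : ∀ z ∈ ball (0 : ℂ) ρ, HasDerivAt L (deriv F z / F z) z := fun z hz =>
    (hL0 z hz).sub_const _
  have hLz : L 0 = 0 := by simp [hLdef]
  have hconst : ∀ z ∈ ball (0 : ℂ) ρ, F z * cexp (-L z) = F 0 := by
    intro z hz
    have hd : ∀ x ∈ ball (0 : ℂ) ρ, HasDerivAt (fun y => F y * cexp (-L y)) 0 x := by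
      intro x hx
      have h1 := (hF x).hasDerivAt.mul ((hL x hx).neg.cexp)
      have e : deriv F x * cexp (-L x) + F x * (cexp (-L x) * -(deriv F x / F x)) = 0 := by
        have hx' := hnz x hx
        field_simp
        ring
      have h1' : HasDerivAt (fun y => F y * cexp (-L y))
        (deriv F x * cexp (-L x) + F x * (cexp (-L x) * -(deriv F x / F x))) x := h1
      rwa [e] at h1'
    have h2 := (convex_ball (0 : ℂ) ρ).is_const_of_fderivWithin_eq_zero (𝕜 := ℂ)
      (f := fun y => F y * cexp (-L y))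
      (fun x hx => (hd x hx).differentiableAt.differentiableWithinAt) (by
        intro x hx
        rw [((hd x hx).hasFDerivAt.hasFDerivWithinAt (s := ball (0 : ℂ) ρ)).fderivWithin
          (isOpen_ball.uniqueDiffWithinAt hx)]
        ext
        simp) hz (mem_ball_self hρ)
    simpa [hLz] using h2
  have hFL : ∀ z ∈ ball (0 : ℂ) ρ, F z = F 0 * cexp (L z) := by
    intro z hz
    rw [← hconst z hz, mul_assoc, ← Complex.exp_add]
    simp
  have hnorm : ∀ z ∈ ball (0 : ℂ) ρ, ‖F z‖ = Real.exp (Real.log ‖F 0‖ + (L z).re) := by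
    intro z hz
    rw [hFL z hz, norm_mul, Complex.norm_exp, Real.exp_add, Real.exp_log h0n]
  set A : ℝ := M - Real.log ‖F 0‖ with hA
  have hre : ∀ z ∈ ball (0 : ℂ) ρ, (L z).re ≤ A := by
    intro z hz
    have h1 := hb z hz
    rw [hnorm z hz, Real.exp_le_exp] at h1
    linarith
  have hA0 : 0 ≤ A := by
    have := hre 0 (mem_ball_self hρ)
    rwa [hLz] at this
  -- Borel-Caratheodory
  have hbc : ∀ w : ℂ, ‖w‖ = ρ / 2 → ‖L w‖ ≤ 2 * A := by
    intro w hw
    have hwb : w ∈ ball (0 : ℂ) ρ := by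
      rw [mem_ball_zero_iff, hw]
      linarith
    refine le_of_forall_pos_le_add (fun δ hδ => ?_)
    have h1 := Complex.borelCaratheodory_zero (f := L) (R := ρ) (z := w)
      (M := A + δ / 2) (by linarith)
      (fun z hz => (hL z hz).differentiableAt.differentiableWithinAt)
      (fun z hz => by
        show (L z).re ≤ _
        linarith [hre z hz]) hρ hwb hLz
    refine h1.trans (le_of_eq ?_)
    rw [hw]
    field_simp
    ring
  have hsub : closedBall (0 : ℂ) (ρ / 2) ⊆ ball 0 ρ := closedBall_subset_ball (by linarith)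
  have hdc : DiffContOnCl ℂ L (ball 0 (ρ / 2)) := by
    refine ⟨fun z hz => (hL z (hsub (ball_subset_closedBall hz))).differentiableAt.differentiableWithinAt,
      fun z hz => ?_⟩
    rw [closure_ball _ (by positivity)] at hz
    exact (hL z (hsub hz)).continuousAt.continuousWithinAt
  have h2 := Complex.norm_iteratedDeriv_le_of_forall_mem_sphere_norm_le 2 (by positivity) hdc
    (C := 2 * A) (fun z hz => hbc z (by simpa using hz))
  have h3 : iteratedDeriv 2 L 0 = deriv (fun z => deriv F z / F z) 0 := by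
    rw [iteratedDeriv_succ, iteratedDeriv_one]
    refine Filter.EventuallyEq.deriv_eq ?_
    filter_upwards [isOpen_ball.mem_nhds (mem_ball_self hρ)] with z hz
    exact (hL z hz).deriv
  rw [h3] at h2
  refine h2.trans (le_of_eq ?_)
  rw [Nat.factorial_two]
  push_cast
  field_simp
  ring

open Pool.Agent.Q5.BP (mu)

variable {g : ℂ → ℂ}

theorem ord_ne_top (hg : Differentiable ℂ g) (h0 : g 0 ≠ 0) (u : ℂ) : analyticOrderAt g u ≠ ⊤ := by
  intro h
  rw [analyticOrderAt_eq_top] at h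
  have han : AnalyticOnNhd ℂ g Set.univ := fun z _ => hg.analyticAt z
  exact h0 (han.eqOn_zero_of_preconnected_of_eventuallyEq_zero isPreconnected_univ
    (Set.mem_univ u) h (Set.mem_univ 0))

theorem fin_zeros (hg : Differentiable ℂ g) (h0 : g 0 ≠ 0) (R : ℝ) :
    {t : ℝ | |t| ≤ R ∧ g (t * I) = 0}.Finite := by
  by_contra hinf
  have hK : IsCompact (Icc (-R) R) := isCompact_Icc
  obtain ⟨t, _, ht⟩ := Set.Infinite.exists_accPt_of_subset_isCompact hinf hK
    (fun t ht => ⟨(abs_le.1 ht.1).1, (abs_le.1 ht.1).2⟩)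
  have h1 : ∃ᶠ y in 𝓝[≠] t, |y| ≤ R ∧ g (y * I) = 0 := by
    rw [accPt_iff_frequently_nhdsNE] at ht
    exact ht
  have h2 : ∃ᶠ z in 𝓝[≠] ((t : ℂ) * I), g z = 0 := by
    have h3 : Tendsto (fun y : ℝ => (y : ℂ) * I) (𝓝[≠] t) (𝓝[≠] ((t : ℂ) * I)) := by
      refine tendsto_nhdsWithin_iff.2 ⟨?_, ?_⟩
      · have : Continuous fun y : ℝ => (y : ℂ) * I := by fun_prop
        exact (this.tendsto t).mono_left nhdsWithin_le_nhds
      · filter_upwards [self_mem_nhdsWithin] with y hy h0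
        apply hy
        have := mul_right_cancel₀ I_ne_zero h0
        exact_mod_cast this
    exact h3.frequently (h1.mono fun y hy => hy.2)
  have h4 := ((hg.analyticAt _).frequently_zero_iff_eventually_zero).1 h2
  exact ord_ne_top hg h0 _ (analyticOrderAt_eq_top.2 h4)

/-- the term of the zero at `it` -/
noncomputable def tz (g : ℂ → ℂ) (t : ℝ) : ℝ := (mu g t : ℝ) / t ^ 2

theorem tz_nonneg (g : ℂ → ℂ) (t : ℝ) : 0 ≤ tz g t := by
  unfold tz
  positivity

theorem tz_zero (hg : Differentiable ℂ g) {t : ℝ} (ht : g (t * I) ≠ 0) :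
    tz g t = 0 := by
  unfold tz mu
  rw [((hg.analyticAt _).analyticOrderAt_eq_zero).2 ht]
  simp

/-- the bound of the remainder -/
noncomputable def er (K a R : ℝ) : ℝ := 16 * (K * (1 + 2 * R) ^ (3 / 2 : ℝ) - a) / R ^ 2

theorem er_tendsto (K a : ℝ) : Tendsto (fun n : ℕ => er K a ((n : ℝ) + 1)) atTop (𝓝 0) := by
  have t1 : Tendsto (fun N : ℕ => (N : ℝ) + 1) atTop atTop :=
    tendsto_atTop_add_const_right _ _ tendsto_natCast_atTop_atTop
  have t2 : Tendsto (fun N : ℕ => 144 * |K| * ((N : ℝ) + 1) ^ (-(1 / 2) : ℝ) +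
      16 * |a| * ((N : ℝ) + 1)⁻¹) atTop (𝓝 0) := by
    have a1 := (tendsto_rpow_neg_atTop (y := 1 / 2) (by norm_num)).comp t1
    have a2 := tendsto_inv_atTop_zero.comp t1
    have := (a1.const_mul (144 * |K|)).add (a2.const_mul (16 * |a|))
    simpa using this
  refine squeeze_zero_norm (fun N => ?_) t2
  set m : ℝ := (N : ℝ) + 1 with hm
  have hm1 : 1 ≤ m := by rw [hm]; linarith [Nat.cast_nonneg (α := ℝ) N]
  have hm0 : 0 < m := by linarith
  have e1 : (1 + 2 * m) ^ (3 / 2 : ℝ) ≤ 9 * m ^ (3 / 2 : ℝ) := by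
    calc (1 + 2 * m) ^ (3 / 2 : ℝ) ≤ (3 * m) ^ (3 / 2 : ℝ) :=
          Real.rpow_le_rpow (by linarith) (by linarith) (by norm_num)
      _ = 3 ^ (3 / 2 : ℝ) * m ^ (3 / 2 : ℝ) := Real.mul_rpow (by norm_num) hm0.le
      _ ≤ 9 * m ^ (3 / 2 : ℝ) := by
          apply mul_le_mul_of_nonneg_right _ (Real.rpow_nonneg hm0.le _)
          calc (3 : ℝ) ^ (3 / 2 : ℝ) ≤ 3 ^ (2 : ℝ) :=
                Real.rpow_le_rpow_of_exponent_le (by norm_num) (by norm_num)
            _ = 9 := by norm_num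
  have e3 : m ^ (3 / 2 : ℝ) / m ^ 2 = m ^ (-(1 / 2) : ℝ) := by
    rw [show (-(1 / 2) : ℝ) = 3 / 2 - 2 by norm_num, Real.rpow_sub hm0, Real.rpow_two]
  have e4 : 1 / m ^ 2 ≤ m⁻¹ := by
    rw [inv_eq_one_div]
    apply one_div_le_one_div_of_le hm0
    nlinarith
  have e5 : 0 ≤ (1 + 2 * m) ^ (3 / 2 : ℝ) := Real.rpow_nonneg (by linarith) _
  have e6 : |K * (1 + 2 * m) ^ (3 / 2 : ℝ) - a| ≤ |K| * (9 * m ^ (3 / 2 : ℝ)) + |a| := by
    refine (abs_sub _ _).trans ?_
    rw [abs_mul, abs_of_nonneg e5]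
    gcongr
  rw [Real.norm_eq_abs]
  unfold er
  rw [abs_div, abs_mul, abs_of_pos (show (0 : ℝ) < 16 by norm_num),
    abs_of_pos (show 0 < m ^ 2 by positivity)]
  calc 16 * |K * (1 + 2 * m) ^ (3 / 2 : ℝ) - a| / m ^ 2
      ≤ 16 * (|K| * (9 * m ^ (3 / 2 : ℝ)) + |a|) / m ^ 2 := by gcongr
    _ = 144 * |K| * (m ^ (3 / 2 : ℝ) / m ^ 2) + 16 * |a| * (1 / m ^ 2) := by ring
    _ ≤ 144 * |K| * m ^ (-(1 / 2) : ℝ) + 16 * |a| * m⁻¹ := by
        rw [e3]
        gcongr

/-- the finite formula -/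
theorem finite_sum (hg : Differentiable ℂ g) (h0 : g 0 ≠ 0) {K : ℝ} (hK : 0 ≤ K)
    (hgr : ∀ w, ‖g w‖ ≤ Real.exp (K * (1 + ‖w‖) ^ (3 / 2 : ℝ)))
    (hz : ∀ w, g w = 0 → w.re = 0) {R : ℝ} (hR : 0 < R) (Z : Finset ℝ)
    (hZ : ∀ t : ℝ, t ∈ Z ↔ |t| ≤ R ∧ g (t * I) = 0) :
    ‖deriv (fun z => deriv g z / g z) 0 - (∑ t ∈ Z, tz g t : ℝ)‖ ≤ er K (Real.log ‖g 0‖) R := by
  classical
  set φ : ℝ → ℂ := fun t => t * I with hφ
  have hφi : Function.Injective φ := fun s t h => by
    have := mul_right_cancel₀ I_ne_zero h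
    exact_mod_cast this
  set U : Finset ℂ := Z.image φ with hU
  have hZ0 : ∀ t ∈ Z, t ≠ 0 := by
    intro t ht h
    have := ((hZ t).1 ht).2
    rw [h, Complex.ofReal_zero, zero_mul] at this
    exact h0 this
  have hU0 : ∀ u ∈ U, u ≠ 0 := by
    intro u hu
    obtain ⟨t, ht, rfl⟩ := Finset.mem_image.1 hu
    exact mul_ne_zero (by exact_mod_cast hZ0 t ht) I_ne_zero
  have hUR : ∀ u ∈ U, ‖u‖ ≤ R := by
    intro u hu
    obtain ⟨t, ht, rfl⟩ := Finset.mem_image.1 hu
    rw [hφ, norm_mul, norm_I, mul_one, Complex.norm_real, Real.norm_eq_abs]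
    exact ((hZ t).1 ht).1
  have hb : ∀ w ∈ closedBall (0 : ℂ) (2 * R), ‖g w‖ ≤ Real.exp (K * (1 + 2 * R) ^ (3 / 2 : ℝ)) := by
    intro w hw
    rw [mem_closedBall_zero_iff] at hw
    refine (hgr w).trans (Real.exp_le_exp.2 (mul_le_mul_of_nonneg_left ?_ hK))
    exact Real.rpow_le_rpow (by positivity) (by linarith) (by norm_num)
  obtain ⟨G, hG, hGb, hgG, hGU⟩ := split_all U hg hR hb hU0 hUR fun u _ => ord_ne_top hg h0 u
  have hGn : ∀ u ∈ ball (0 : ℂ) R, G u ≠ 0 := by
    intro u hu h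
    rw [mem_ball_zero_iff] at hu
    have h1 : g u = 0 := by rw [hgG u, h, mul_zero]
    have h2 : u = φ u.im := by
      apply Complex.ext
      · simp [hφ, hz u h1]
      · simp [hφ]
    refine hGU u ?_ h
    rw [h2]
    refine Finset.mem_image_of_mem φ ((hZ _).2 ⟨?_, ?_⟩)
    · exact (Complex.abs_im_le_norm u).trans hu.le
    · rw [← h1]
      exact congrArg g h2.symm
  have hG0 : G 0 = g 0 := by
    have := hgG 0
    simpa using this.symm
  have h1 := nz_bound hG hR hGn (M := K * (1 + 2 * R) ^ (3 / 2 : ℝ)) fun w hw =>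
    hGb w (closedBall_subset_closedBall (by linarith) (ball_subset_closedBall hw))
  rw [hG0] at h1
  have h2 : deriv (fun z => deriv g z / g z) 0 =
      (∑ t ∈ Z, tz g t : ℝ) + deriv (fun z => deriv G z / G z) 0 := by
    have hnear : ∀ᶠ z in 𝓝 (0 : ℂ), g z ≠ 0 ∧ G z ≠ 0 :=
      (hg.continuous.continuousAt.eventually_ne h0).and
        (hG.continuous.continuousAt.eventually_ne (by rwa [hG0]))
    have h3 : (fun z => deriv g z / g z) =ᶠ[𝓝 0]
        fun z => (∑ u ∈ U, ((analyticOrderAt g u).toNat : ℂ) * (z - u)⁻¹) + deriv G z / G z := by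
      filter_upwards [hnear] with z hz'
      have hprod : (∏ u ∈ U, (1 - z / u) ^ (analyticOrderAt g u).toNat) ≠ 0 := by
        intro h
        apply hz'.1
        rw [hgG z, h, zero_mul]
      have hfac : ∀ u ∈ U, (1 - z / u) ^ (analyticOrderAt g u).toNat ≠ 0 :=
        Finset.prod_ne_zero_iff.1 hprod
      have e1 : deriv g z / g z = logDeriv g z := rfl
      have e2 : g = fun w => (∏ u ∈ U, (1 - w / u) ^ (analyticOrderAt g u).toNat) * G w :=
        funext hgG
      rw [e1]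
      conv_lhs => rw [e2]
      rw [logDeriv_mul z hprod hz'.2 (DifferentiableAt.fun_finsetProd fun u _ => by fun_prop)
        (hG z), logDeriv_prod hfac (fun u _ => by fun_prop)]
      congr 1
      refine Finset.sum_congr rfl fun u hu => ?_
      have hu0 := hU0 u hu
      rw [logDeriv_fun_pow (by fun_prop)]
      by_cases hn : (analyticOrderAt g u).toNat = 0
      · rw [hn]
        simp
      · have h5 : (1 : ℂ) - z / u ≠ 0 := by
          intro h6
          apply hfac u hu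
          rw [h6, zero_pow hn]
        have h7 : z - u ≠ 0 := by
          intro h8
          apply h5
          have : z = u := by linear_combination h8
          rw [this, div_self hu0, sub_self]
        have h9 : deriv (fun w : ℂ => 1 - w / u) z = -(1 / u) := by
          have : HasDerivAt (fun w : ℂ => 1 - w / u) (-(1 / u)) z := by
            have := ((hasDerivAt_id z).div_const u).const_sub 1
            exact this
          exact this.deriv
        rw [logDeriv_apply, h9]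
        have h10 : u - z ≠ 0 := fun h => h7 (by linear_combination -h)
        have h11 : (1 : ℂ) - z / u = (u - z) / u := by
          field_simp
        rw [h11]
        field_simp
        ring
    rw [h3.deriv_eq]
    have hd1 : ∀ u ∈ U, HasDerivAt (fun z : ℂ => ((analyticOrderAt g u).toNat : ℂ) * (z - u)⁻¹)
        (((analyticOrderAt g u).toNat : ℂ) * (-(1 / u ^ 2))) 0 := by
      intro u hu
      have hu0 := hU0 u hu
      have h4 : HasDerivAt (fun z : ℂ => (z - u)⁻¹) (-1 / (0 - u) ^ 2) 0 :=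
        ((hasDerivAt_id (0 : ℂ)).sub_const u).fun_inv (by simpa using hu0)
      have h5 := h4.const_mul ((analyticOrderAt g u).toNat : ℂ)
      refine h5.congr_deriv ?_
      rw [zero_sub, neg_sq, neg_div]
    have hd2 : DifferentiableAt ℂ (fun z => deriv G z / G z) 0 :=
      DifferentiableAt.div ((hG.contDiff (n := 2)).differentiable_deriv_two 0) (hG 0)
        (by rwa [hG0])
    have hd3 := (HasDerivAt.fun_sum hd1).add hd2.hasDerivAt
    have hd4 : deriv (fun z => (∑ u ∈ U, ((analyticOrderAt g u).toNat : ℂ) * (z - u)⁻¹) +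
        deriv G z / G z) 0 = _ := hd3.deriv
    rw [hd4]
    congr 1
    rw [hU, Finset.sum_image fun _ _ _ _ h => hφi h]
    push_cast
    refine Finset.sum_congr rfl fun t ht => ?_
    have ht0 : (t : ℂ) ≠ 0 := by exact_mod_cast hZ0 t ht
    unfold tz mu
    push_cast
    rw [hφ, mul_pow, I_sq]
    field_simp
  rw [h2, add_sub_cancel_left]
  exact h1

/-- **The sum over the zeros.** -/
theorem zeros_sum (hg : Differentiable ℂ g) (h0 : g 0 ≠ 0) {K : ℝ} (hK : 0 ≤ K)
    (hgr : ∀ w, ‖g w‖ ≤ Real.exp (K * (1 + ‖w‖) ^ (3 / 2 : ℝ)))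
    (hz : ∀ w, g w = 0 → w.re = 0) :
    ∃ c : ℝ, deriv (fun z => deriv g z / g z) 0 = c ∧ HasSum (tz g) c := by
  classical
  set D : ℂ := deriv (fun z => deriv g z / g z) 0 with hD
  set Z : ℕ → Finset ℝ := fun n => (fin_zeros hg h0 ((n : ℝ) + 1)).toFinset with hZdef
  have hZ : ∀ (n : ℕ) (t : ℝ), t ∈ Z n ↔ |t| ≤ (n : ℝ) + 1 ∧ g (t * I) = 0 := by
    intro n t
    rw [hZdef]
    simp
  have h1 : ∀ n : ℕ, ‖D - (∑ t ∈ Z n, tz g t : ℝ)‖ ≤ er K (Real.log ‖g 0‖) ((n : ℝ) + 1) :=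
    fun n => finite_sum hg h0 hK hgr hz (by positivity) (Z n) (hZ n)
  have h2 := er_tendsto K (Real.log ‖g 0‖)
  have h3 : Tendsto (fun n : ℕ => ((∑ t ∈ Z n, tz g t : ℝ) : ℂ)) atTop (𝓝 D) := by
    rw [tendsto_iff_norm_sub_tendsto_zero]
    refine squeeze_zero (fun n => norm_nonneg _) (fun n => ?_) h2
    rw [norm_sub_rev]
    exact h1 n
  have h4 : Tendsto (fun n : ℕ => (∑ t ∈ Z n, tz g t : ℝ)) atTop (𝓝 D.re) := by
    have := (Complex.continuous_re.tendsto D).comp h3
    exact this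
  have h5 : D.im = 0 := by
    have := (Complex.continuous_im.tendsto D).comp h3
    have h6 : Tendsto (fun _ : ℕ => (0 : ℝ)) atTop (𝓝 D.im) := by
      refine this.congr fun n => ?_
      simp only [Function.comp_apply, Complex.ofReal_im]
    exact tendsto_nhds_unique tendsto_const_nhds h6 |>.symm
  have hsub : ∀ s : Finset ℝ, ∀ᶠ n : ℕ in atTop, ∑ t ∈ s, tz g t ≤ ∑ t ∈ Z n, tz g t := by
    intro s
    obtain ⟨B, hB⟩ : ∃ B : ℝ, ∀ t ∈ s, |t| ≤ B := by
      refine ⟨∑ t ∈ s, |t|, fun t ht => ?_⟩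
      exact Finset.single_le_sum (f := fun t => |t|) (fun t _ => abs_nonneg t) ht
    filter_upwards [tendsto_natCast_atTop_atTop.eventually_ge_atTop B] with n hn
    rw [← Finset.sum_filter_add_sum_filter_not s (fun t => t ∈ Z n)]
    have e1 : ∑ t ∈ s.filter (fun t => t ∉ Z n), tz g t = 0 := by
      refine Finset.sum_eq_zero fun t ht => ?_
      rw [Finset.mem_filter, hZ] at ht
      refine tz_zero hg fun h => ht.2 ⟨?_, h⟩
      have := hB t ht.1
      linarith
    rw [e1, add_zero]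
    refine Finset.sum_le_sum_of_subset_of_nonneg (fun t ht => (Finset.mem_filter.1 ht).2) ?_
    exact fun t _ _ => tz_nonneg g t
  refine ⟨D.re, Complex.ext rfl (by simpa using h5), ?_⟩
  refine hasSum_of_isLUB_of_nonneg _ (tz_nonneg g) ⟨?_, ?_⟩
  · rintro x ⟨s, rfl⟩
    exact ge_of_tendsto h4 (hsub s)
  · intro b hb
    exact le_of_tendsto h4 (Eventually.of_forall fun n => hb ⟨Z n, rfl⟩)

end Pool.Agent.Q5.SZ
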