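import Pool.Agent.H21.L.R_pool_sql_team_seeded_2aa45f1a.Q5.SZ.Comp

/-!
# Even entire functions of order less than `2` are determined by their zeros
-/

set_option autoImplicit false

open Filter Topology Set Complex Metric

namespace Pool.Agent.Q5.SZ

variable {g G P g₁ g₂ : ℂ → ℂ}

theorem fin_disc (hg : Differentiable ℂ g) (h0 : g 0 ≠ 0) (R : ℝ) :
    {w : ℂ | ‖w‖ ≤ R ∧ g w = 0}.Finite := by
  by_contra hinf
  obtain ⟨t, _, ht⟩ := Set.Infinite.exists_accPt_of_subset_isCompact hinf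
    (isCompact_closedBall (0 : ℂ) R) (fun w hw => by
      rw [mem_closedBall_zero_iff]
      exact hw.1)
  have h1 : ∃ᶠ y in 𝓝[≠] t, ‖y‖ ≤ R ∧ g y = 0 := by
    rw [accPt_iff_frequently_nhdsNE] at ht
    exact ht
  have h4 := ((hg.analyticAt _).frequently_zero_iff_eventually_zero).1 (h1.mono fun y hy => hy.2)
  exact ord_ne_top hg h0 _ (analyticOrderAt_eq_top.2 h4)

theorem log_split (hG : Differentiable ℂ G) (hP : Differentiable ℂ P)
    (h : ∀ w, g w = P w * G w) (h0 : g 0 ≠ 0) :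
    deriv (fun z => deriv g z / g z) 0 =
      deriv (fun z => deriv P z / P z) 0 + deriv (fun z => deriv G z / G z) 0 := by
  have hP0 : P 0 ≠ 0 := fun h1 => h0 (by rw [h, h1, zero_mul])
  have hG0 : G 0 ≠ 0 := fun h1 => h0 (by rw [h, h1, mul_zero])
  have e : g = fun w => P w * G w := funext h
  have h3 : (fun z => deriv g z / g z) =ᶠ[𝓝 0] fun z => deriv P z / P z + deriv G z / G z := by
    filter_upwards [hP.continuous.continuousAt.eventually_ne hP0,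
      hG.continuous.continuousAt.eventually_ne hG0] with z hz1 hz2
    have e1 : deriv g z / g z = logDeriv g z := rfl
    rw [e1, e, logDeriv_mul z hz1 hz2 (hP z) (hG z)]
    rfl
  rw [h3.deriv_eq]
  have d1 : DifferentiableAt ℂ (fun z => deriv P z / P z) 0 :=
    DifferentiableAt.div ((hP.contDiff (n := 2)).differentiable_deriv_two 0) (hP 0) hP0
  have d2 : DifferentiableAt ℂ (fun z => deriv G z / G z) 0 :=
    DifferentiableAt.div ((hG.contDiff (n := 2)).differentiable_deriv_two 0) (hG 0) hG0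
  exact (d1.hasDerivAt.add d2.hasDerivAt).deriv

/-- one function, after the division by the zeros in a disc -/
theorem rest_bound (hg : Differentiable ℂ g) (h0 : g 0 ≠ 0) {K : ℝ} (hK : 0 ≤ K)
    (hgr : ∀ w, ‖g w‖ ≤ Real.exp (K * (1 + ‖w‖) ^ (3 / 2 : ℝ))) {R : ℝ} (hR : 0 < R)
    (Z : Finset ℂ) (hZ : ∀ w : ℂ, w ∈ Z ↔ ‖w‖ ≤ R ∧ g w = 0) :
    ‖deriv (fun z => deriv g z / g z) 0 - deriv (fun z => deriv
      (fun w => ∏ u ∈ Z, (1 - w / u) ^ (analyticOrderAt g u).toNat) z /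
        ∏ u ∈ Z, (1 - z / u) ^ (analyticOrderAt g u).toNat) 0‖ ≤ er K (Real.log ‖g 0‖) R := by
  classical
  have hZ0 : ∀ u ∈ Z, u ≠ 0 := by
    intro u hu h
    have := ((hZ u).1 hu).2
    rw [h] at this
    exact h0 this
  have hb : ∀ w ∈ closedBall (0 : ℂ) (2 * R), ‖g w‖ ≤ Real.exp (K * (1 + 2 * R) ^ (3 / 2 : ℝ)) := by
    intro w hw
    rw [mem_closedBall_zero_iff] at hw
    refine (hgr w).trans (Real.exp_le_exp.2 (mul_le_mul_of_nonneg_left ?_ hK))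
    exact Real.rpow_le_rpow (by positivity) (by linarith) (by norm_num)
  obtain ⟨G, hG, hGb, hgG, hGU⟩ := split_all Z hg hR hb hZ0 (fun u hu => ((hZ u).1 hu).1)
    fun u _ => ord_ne_top hg h0 u
  have hGn : ∀ u ∈ ball (0 : ℂ) R, G u ≠ 0 := by
    intro u hu h
    rw [mem_ball_zero_iff] at hu
    exact hGU u ((hZ u).2 ⟨hu.le, by rw [hgG u, h, mul_zero]⟩) h
  have hG0 : G 0 = g 0 := by
    have := hgG 0
    simpa using this.symm
  have h1 := nz_bound hG hR hGn (M := K * (1 + 2 * R) ^ (3 / 2 : ℝ)) fun w hw =>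
    hGb w (closedBall_subset_closedBall (by linarith) (ball_subset_closedBall hw))
  rw [hG0] at h1
  have hP : Differentiable ℂ fun w : ℂ => ∏ u ∈ Z, (1 - w / u) ^ (analyticOrderAt g u).toNat := by
    intro w
    exact DifferentiableAt.fun_finsetProd fun u _ => by fun_prop
  rw [log_split hG hP hgG h0, add_sub_cancel_left]
  exact h1

theorem zero_iff (h1 : Differentiable ℂ g₁) (h2 : Differentiable ℂ g₂)
    (ho : ∀ u, analyticOrderAt g₁ u = analyticOrderAt g₂ u) (u : ℂ) : g₁ u = 0 ↔ g₂ u = 0 := by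
  rw [← not_iff_not, ← ne_eq, ← ne_eq, ← (h1.analyticAt u).analyticOrderAt_eq_zero,
    ← (h2.analyticAt u).analyticOrderAt_eq_zero, ho u]

/-- the second logarithmic derivatives at a point agree -/
theorem second_eq (h1 : Differentiable ℂ g₁) (h2 : Differentiable ℂ g₂) {K₁ K₂ : ℝ} (hK₁ : 0 ≤ K₁)
    (hK₂ : 0 ≤ K₂) (b1 : ∀ w, ‖g₁ w‖ ≤ Real.exp (K₁ * (1 + ‖w‖) ^ (3 / 2 : ℝ)))
    (b2 : ∀ w, ‖g₂ w‖ ≤ Real.exp (K₂ * (1 + ‖w‖) ^ (3 / 2 : ℝ)))
    (ho : ∀ u, analyticOrderAt g₁ u = analyticOrderAt g₂ u) (h01 : g₁ 0 ≠ 0) :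
    deriv (fun z => deriv g₁ z / g₁ z) 0 = deriv (fun z => deriv g₂ z / g₂ z) 0 := by
  have hz : ∀ u, g₁ u = 0 ↔ g₂ u = 0 := zero_iff h1 h2 ho
  have h02 : g₂ 0 ≠ 0 := fun h => h01 ((hz 0).2 h)
  set D₁ : ℂ := deriv (fun z => deriv g₁ z / g₁ z) 0 with hD1
  set D₂ : ℂ := deriv (fun z => deriv g₂ z / g₂ z) 0 with hD2
  have key : ∀ n : ℕ, ‖D₁ - D₂‖ ≤ er K₁ (Real.log ‖g₁ 0‖) ((n : ℝ) + 1) +
      er K₂ (Real.log ‖g₂ 0‖) ((n : ℝ) + 1) := by
    intro n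
    set Z : Finset ℂ := (fin_disc h1 h01 ((n : ℝ) + 1)).toFinset with hZ
    have hZ1 : ∀ w : ℂ, w ∈ Z ↔ ‖w‖ ≤ (n : ℝ) + 1 ∧ g₁ w = 0 := by
      intro w
      rw [hZ]
      simp
    have hZ2 : ∀ w : ℂ, w ∈ Z ↔ ‖w‖ ≤ (n : ℝ) + 1 ∧ g₂ w = 0 := by
      intro w
      rw [hZ1, hz]
    have k1 := rest_bound h1 h01 hK₁ b1 (by positivity) Z hZ1
    have k2 := rest_bound h2 h02 hK₂ b2 (by positivity) Z hZ2
    have e : ∀ u, (analyticOrderAt g₁ u).toNat = (analyticOrderAt g₂ u).toNat := fun u => by rw [ho u]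
    simp only [e] at k1
    set q : ℂ := deriv (fun z => deriv
      (fun w => ∏ u ∈ Z, (1 - w / u) ^ (analyticOrderAt g₂ u).toNat) z /
        ∏ u ∈ Z, (1 - z / u) ^ (analyticOrderAt g₂ u).toNat) 0 with hq
    have k3 := norm_sub_le_norm_sub_add_norm_sub D₁ q D₂
    rw [norm_sub_rev q D₂] at k3
    linarith
  have hlim := (er_tendsto K₁ (Real.log ‖g₁ 0‖)).add (er_tendsto K₂ (Real.log ‖g₂ 0‖))
  rw [add_zero] at hlim
  have h3 : ‖D₁ - D₂‖ ≤ 0 := ge_of_tendsto hlim (Eventually.of_forall key)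
  exact sub_eq_zero.1 (norm_le_zero_iff.1 h3)

/-- shifts -/
theorem second_eq_at (h1 : Differentiable ℂ g₁) (h2 : Differentiable ℂ g₂) {K₁ K₂ : ℝ} (hK₁ : 0 ≤ K₁)
    (hK₂ : 0 ≤ K₂) (b1 : ∀ w, ‖g₁ w‖ ≤ Real.exp (K₁ * (1 + ‖w‖) ^ (3 / 2 : ℝ)))
    (b2 : ∀ w, ‖g₂ w‖ ≤ Real.exp (K₂ * (1 + ‖w‖) ^ (3 / 2 : ℝ)))
    (ho : ∀ u, analyticOrderAt g₁ u = analyticOrderAt g₂ u) {z : ℂ} (hz : g₁ z ≠ 0) :
    deriv (fun z => deriv g₁ z / g₁ z) z = deriv (fun z => deriv g₂ z / g₂ z) z := by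
  have sh : ∀ {g : ℂ → ℂ}, Differentiable ℂ g → deriv (fun w => deriv (fun v => g (v + z)) w /
      (fun v => g (v + z)) w) 0 = deriv (fun w => deriv g w / g w) z := by
    intro g hg
    have hd : ∀ w, deriv (fun v => g (v + z)) w = deriv g (w + z) := fun w =>
      deriv_comp_add_const g z w
    have h5 : (fun w => deriv (fun v => g (v + z)) w / (fun v => g (v + z)) w) =
        fun w => (fun z => deriv g z / g z) (w + z) := by
      funext w
      simp only [hd]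
    have h6 := deriv_comp_add_const (fun z => deriv g z / g z) z 0
    rw [zero_add] at h6
    rw [h5]
    exact h6
  have gr : ∀ {g : ℂ → ℂ} {K : ℝ}, 0 ≤ K → (∀ w, ‖g w‖ ≤ Real.exp (K * (1 + ‖w‖) ^ (3 / 2 : ℝ))) →
      ∀ w, ‖g (w + z)‖ ≤ Real.exp (K * (1 + ‖z‖) ^ (3 / 2 : ℝ) * (1 + ‖w‖) ^ (3 / 2 : ℝ)) := by
    intro g K hK hgr w
    refine (hgr _).trans (Real.exp_le_exp.2 ?_)
    rw [mul_assoc, ← Real.mul_rpow (by positivity) (by positivity)]
    refine mul_le_mul_of_nonneg_left (Real.rpow_le_rpow (by positivity) ?_ (by norm_num)) hK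
    have h3 := norm_add_le w z
    have h4 : 0 ≤ ‖w‖ * ‖z‖ := by positivity
    nlinarith
  have od : ∀ {g : ℂ → ℂ} (u : ℂ), analyticOrderAt (fun v => g (v + z)) u = analyticOrderAt g (u + z) := by
    intro g u
    have h1 : AnalyticAt ℂ (fun s : ℂ => s + z) u := by fun_prop
    have h2 : deriv (fun s : ℂ => s + z) u ≠ 0 := by simp
    exact analyticOrderAt_comp_of_deriv_ne_zero (f := g) h1 h2
  rw [← sh h1, ← sh h2]
  refine second_eq (g₁ := fun v => g₁ (v + z)) (g₂ := fun v => g₂ (v + z))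
    (K₁ := K₁ * (1 + ‖z‖) ^ (3 / 2 : ℝ)) (K₂ := K₂ * (1 + ‖z‖) ^ (3 / 2 : ℝ))
    (h1.comp (differentiable_id.add_const z)) (h2.comp (differentiable_id.add_const z))
    (by positivity) (by positivity) (gr hK₁ b1) (gr hK₂ b2) (fun u => ?_) (by simpa using hz)
  rw [od, od, ho]

/-- **Functions with the same zeros.** -/
theorem same_zeros (h1 : Differentiable ℂ g₁) (h2 : Differentiable ℂ g₂) {K₁ K₂ : ℝ} (hK₁ : 0 ≤ K₁)
    (hK₂ : 0 ≤ K₂) (b1 : ∀ w, ‖g₁ w‖ ≤ Real.exp (K₁ * (1 + ‖w‖) ^ (3 / 2 : ℝ)))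
    (b2 : ∀ w, ‖g₂ w‖ ≤ Real.exp (K₂ * (1 + ‖w‖) ^ (3 / 2 : ℝ)))
    (ho : ∀ u, analyticOrderAt g₁ u = analyticOrderAt g₂ u) (h01 : g₁ 0 ≠ 0) :
    ∃ c b : ℂ, c ≠ 0 ∧ ∀ w, g₁ w = c * exp (b * w) * g₂ w := by
  have hz : ∀ u, g₁ u = 0 ↔ g₂ u = 0 := zero_iff h1 h2 ho
  set U : Set ℂ := {w | g₁ w = 0}ᶜ with hU
  have hUm : ∀ w, w ∈ U ↔ g₁ w ≠ 0 := fun w => Iff.rfl
  have hUo : IsOpen U := (isClosed_eq h1.continuous continuous_const).isOpen_compl
  have hcount : {w | g₁ w = 0}.Countable := by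
    have e : {w | g₁ w = 0} = ⋃ n : ℕ, {w : ℂ | ‖w‖ ≤ n ∧ g₁ w = 0} := by
      ext w
      rw [Set.mem_iUnion]
      constructor
      · intro h
        obtain ⟨n, hn⟩ := exists_nat_ge ‖w‖
        exact ⟨n, hn, h⟩
      · rintro ⟨n, -, h⟩
        exact h
    rw [e]
    exact Set.countable_iUnion fun n => (fin_disc h1 h01 n).countable
  have hUc : IsPreconnected U := by
    have := hcount.isPathConnected_compl_of_one_lt_rank (by
      rw [Complex.rank_real_complex]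
      exact Cardinal.one_lt_two)
    exact this.isConnected.isPreconnected
  have d1 : DifferentiableOn ℂ (fun z => deriv g₁ z / g₁ z) U :=
    DifferentiableOn.div ((h1.contDiff (n := 2)).differentiable_deriv_two).differentiableOn
      h1.differentiableOn fun x hx => hx
  have d2 : DifferentiableOn ℂ (fun z => deriv g₂ z / g₂ z) U :=
    DifferentiableOn.div ((h2.contDiff (n := 2)).differentiable_deriv_two).differentiableOn
      h2.differentiableOn fun x hx h => hx ((hz x).2 h)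
  obtain ⟨b, hb⟩ := hUo.exists_is_const_of_deriv_eq_zero hUc (d1.sub d2) fun x hx => by
    have k1 := (d1.differentiableAt (hUo.mem_nhds hx)).hasDerivAt
    have k2 := (d2.differentiableAt (hUo.mem_nhds hx)).hasDerivAt
    have k3 := (k1.sub k2).deriv
    rw [k3, second_eq_at h1 h2 hK₁ hK₂ b1 b2 ho hx, sub_self]
    rfl
  have d3 : DifferentiableOn ℂ (fun z => g₁ z * exp (-(b * z)) / g₂ z) U :=
    DifferentiableOn.div (DifferentiableOn.mul h1.differentiableOn (by fun_prop))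
      h2.differentiableOn fun x hx h => hx ((hz x).2 h)
  obtain ⟨c, hc⟩ := hUo.exists_is_const_of_deriv_eq_zero hUc d3 fun x hx => by
    have hx1 : g₁ x ≠ 0 := hx
    have hx2 : g₂ x ≠ 0 := fun h => hx ((hz x).2 h)
    have k1 : HasDerivAt (fun z : ℂ => exp (-(b * z))) (exp (-(b * x)) * -(b * 1)) x :=
      (((hasDerivAt_id x).const_mul b).neg).cexp
    have k2 := ((h1 x).hasDerivAt.mul k1).div (h2 x).hasDerivAt hx2
    have k3 : deriv (fun z => g₁ z * exp (-(b * z)) / g₂ z) x = _ := k2.deriv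
    rw [k3]
    have k4 : deriv g₁ x / g₁ x - deriv g₂ x / g₂ x = b := hb x hx
    have k5 : deriv g₁ x = (b + deriv g₂ x / g₂ x) * g₁ x := by
      rw [← k4]
      field_simp
      ring
    rw [k5]
    simp only [Pi.mul_apply, Pi.zero_apply]
    field_simp
    ring
  have hc0 : c ≠ 0 := by
    intro h
    have k := hc 0 h01
    have h02 : g₂ 0 ≠ 0 := fun h => h01 ((hz 0).2 h)
    simp only [mul_zero, neg_zero, Complex.exp_zero, mul_one, h] at k
    exact (div_ne_zero h01 h02) k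
  refine ⟨c, b, hc0, fun w => ?_⟩
  by_cases hw : g₁ w = 0
  · rw [hw, (hz w).1 hw, mul_zero]
  · have k := hc w hw
    have hw2 : g₂ w ≠ 0 := fun h => hw ((hz w).2 h)
    have k' : g₁ w * exp (-(b * w)) / g₂ w = c := k
    rw [← k', Complex.exp_neg]
    have := Complex.exp_ne_zero (b * w)
    field_simp

/-- even functions with the same zeros -/
theorem same_even (h1 : Differentiable ℂ g₁) (h2 : Differentiable ℂ g₂) {K₁ K₂ : ℝ} (hK₁ : 0 ≤ K₁)
    (hK₂ : 0 ≤ K₂) (b1 : ∀ w, ‖g₁ w‖ ≤ Real.exp (K₁ * (1 + ‖w‖) ^ (3 / 2 : ℝ)))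
    (b2 : ∀ w, ‖g₂ w‖ ≤ Real.exp (K₂ * (1 + ‖w‖) ^ (3 / 2 : ℝ)))
    (ho : ∀ u, analyticOrderAt g₁ u = analyticOrderAt g₂ u) (h01 : g₁ 0 ≠ 0)
    (e1 : ∀ w, g₁ (-w) = g₁ w) (e2 : ∀ w, g₂ (-w) = g₂ w) :
    ∃ c : ℂ, c ≠ 0 ∧ ∀ w, g₁ w = c * g₂ w := by
  obtain ⟨c, b, hc, h⟩ := same_zeros h1 h2 hK₁ hK₂ b1 b2 ho h01
  have h02 : g₂ 0 ≠ 0 := fun h3 => h01 (by rw [h 0, h3, mul_zero])
  have k1 := even_deriv h1 e1
  have k2 := even_deriv h2 e2
  have k3 : HasDerivAt (fun w : ℂ => c * exp (b * w) * g₂ w)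
      ((c * (exp (b * 0) * (b * 1))) * g₂ 0 + c * exp (b * 0) * deriv g₂ 0) 0 :=
    ((((hasDerivAt_id (0 : ℂ)).const_mul b).cexp).const_mul c).mul (h2 0).hasDerivAt
  have e : g₁ = fun w : ℂ => c * exp (b * w) * g₂ w := funext h
  rw [← e] at k3
  have k4 := k3.deriv
  rw [k1, k2] at k4
  simp only [mul_zero, Complex.exp_zero, mul_one, one_mul, add_zero] at k4
  have hb : b = 0 := by
    rcases mul_eq_zero.1 k4.symm with h5 | h5
    · rcases mul_eq_zero.1 h5 with h6 | h6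
      · exact absurd h6 hc
      · exact h6
    · exact absurd h5 h02
  refine ⟨c, hc, fun w => ?_⟩
  rw [h w, hb, zero_mul, Complex.exp_zero, mul_one]

end Pool.Agent.Q5.SZ
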